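import Mathlib

namespace Pool.Agent.Results.MP_17a11e_co.Full

def T : Finset (ℤ × ℤ) := {(10, 8), (5, 8), (5, 13), (0, 13), (0, 1), (1, 1), (1, 0), (2, 0),
  (2, 15), (7, 15), (7, 10), (11, 10), (11, 11), (10, 11)}

def up (p : ℤ × ℤ) : ℝ × ℝ := (p.1, p.2)

lemma inj : Function.Injective up := fun p q h => by
  simp only [up, Prod.mk.injEq, Int.cast_inj] at h
  exact Prod.ext h.1 h.2

lemma key (a b : ℤ) (h : ∀ p ∈ T, (T.filter fun q => a * q.1 + b * q.2 = a * p.1 + b * p.2).card = 2)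
    (L : Set (ℝ × ℝ)) (c : ℝ) (hL : ∀ p, p ∈ L ↔ a * p.1 + b * p.2 = c) :
    (up '' T ∩ L).ncard = 0 ∨ (up '' T ∩ L).ncard = 2 := by
  rcases (up '' T ∩ L).eq_empty_or_nonempty with e | ⟨_, ⟨p, hp, rfl⟩, e⟩
  · left; rw [e, Set.ncard_empty]
  · right
    rw [← h p hp, ← Set.ncard_coe_finset, ← Set.ncard_image_of_injective _ inj]
    congr 1
    rw [hL] at e
    ext x
    simp only [Set.mem_inter_iff, Set.mem_image, Finset.mem_coe, Finset.mem_filter, hL, ← e]
    constructor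
    · rintro ⟨⟨q, hq, rfl⟩, k⟩
      exact ⟨q, ⟨hq, by simp only [up] at k; exact_mod_cast k⟩, rfl⟩
    · rintro ⟨q, ⟨hq, k⟩, rfl⟩
      exact ⟨⟨q, hq, rfl⟩, by simp only [up]; exact_mod_cast k⟩

theorem result : ∃ S : Set (ℝ × ℝ), S.Finite ∧ S.ncard = 14 ∧ ∀ c : ℝ,
    ∀ L ∈ ({{p | p.2 = c}, {p | p.1 = c}, {p | p.2 = p.1 + c}, {p | p.2 = -p.1 + c}} :
      Set (Set (ℝ × ℝ))), (S ∩ L).ncard = 0 ∨ (S ∩ L).ncard = 2 := by
  refine ⟨up '' T, T.finite_toSet.image _, ?_, ?_⟩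
  · rw [Set.ncard_image_of_injective _ inj, Set.ncard_coe_finset]; decide +kernel
  · rintro c L (rfl | rfl | rfl | rfl)
    · exact key 0 1 (by decide +kernel) _ c (by simp)
    · exact key 1 0 (by decide +kernel) _ c (by simp)
    · exact key (-1) 1 (by decide +kernel) _ c fun p => by
        simp only [Set.mem_setOf_eq]; push_cast; constructor <;> intro h <;> linarith
    · exact key 1 1 (by decide +kernel) _ c fun p => by
        simp only [Set.mem_setOf_eq]; push_cast; constructor <;> intro h <;> linarith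

end Pool.Agent.Results.MP_17a11e_co.Full
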